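import Pool.Agent.Helper61.LF.MainOne

/-!
The frog model with lazy walks in dimension one: for every law of the numbers of particles the shape
is strictly increasing in the jump probability as long as it is not `[-1,1]`.
-/

namespace Pool.Agent.Results.MP_ec74f9_pr.LineShape

open MeasureTheory Pool.Agent.Helper61.LF

theorem result (ν : Measure ℕ) [IsProbabilityMeasure ν] (hν : ν {0} < 1) {p p' : ℝ} (hp : 0 < p)
    (hpp : p < p') (hp' : p' ≤ 1) {A A' : Set (Fin 1 → ℝ)} (hA : IsShape ν p A)
    (hA' : IsShape ν p' A') (hne : closure A' ≠ {v | ∑ i, |v i| ≤ 1}) :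
    closure A ⊂ closure A' :=
  main_one ν hν hp hpp hp' hA hA' hne

end Pool.Agent.Results.MP_ec74f9_pr.LineShape
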