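import Pool.Agent.Helper61.LF.MainMean

/-!
The frog model with lazy walks: if the mean number of particles per site is less than `(2-p')/p'`, the
shape for `p'` is strictly larger than the shape for every smaller `p`, in every dimension.
-/

namespace Pool.Agent.Results.MP_ec74f9_pr.SmallMean

open MeasureTheory Pool.Agent.Helper61.LF

theorem result {d : ℕ} (hd : 1 ≤ d) (ν : Measure ℕ) [IsProbabilityMeasure ν] (hν : ν {0} < 1)
    {p p' : ℝ} (hp : 0 < p) (hpp : p < p') (hp' : p' ≤ 1)
    (hmean : ∫⁻ n : ℕ, (n : ENNReal) ∂ν < ENNReal.ofReal ((2 - p') / p'))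
    {A A' : Set (Fin d → ℝ)} (hA : IsShape ν p A) (hA' : IsShape ν p' A') :
    closure A ⊂ closure A' :=
  main_mean hd ν hν hp hpp hp' hmean hA hA'

end Pool.Agent.Results.MP_ec74f9_pr.SmallMean
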