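import Pool.Agent.Helper61.LF.MainInt

/-!
The frog model with lazy walks: strict monotonicity of the shape in the jump probability, in every
dimension, for laws with `∫_0^∞ P(log(1+η) ≥ r)^(1/d) dr < ∞` (in particular if `log(1+η)` has a finite
moment of order larger than `d`), unless the shape is the convex hull of its points on the unit
sphere of the `ℓ¹` norm.
-/

namespace Pool.Agent.Results.MP_ec74f9_pr.StrictShape

open MeasureTheory Pool.Agent.Helper61.LF

theorem result {d : ℕ} (hd : 1 ≤ d) (ν : Measure ℕ) [IsProbabilityMeasure ν] (hν : ν {0} < 1)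
    (hm : ∫⁻ r in Set.Ioi (0 : ℝ), (ν {k : ℕ | r ≤ Real.log (1 + k)}) ^ (1 / (d : ℝ)) < ⊤)
    {p p' : ℝ} (hp : 0 < p) (hpp : p < p') (hp' : p' ≤ 1) {A A' : Set (Fin d → ℝ)}
    (hA : IsShape ν p A) (hA' : IsShape ν p' A')
    (hne : closure A' ≠ convexHull ℝ (closure A' ∩ {v | ∑ i, |v i| = 1})) :
    closure A ⊂ closure A' :=
  main_integral hd ν hν hm hp hpp hp' hA hA' hne

end Pool.Agent.Results.MP_ec74f9_pr.StrictShape
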